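import Pool.Agent.H27.G.R_seed8.H180R3.E469a

set_option autoImplicit false

open Finset

namespace Pool.Agent.H180R3.E469

lemma exp_sub_one_le {t : ℝ} (h0 : 0 ≤ t) (h1 : t ≤ 1 / 2) : Real.exp t - 1 ≤ t * (1 + 2 * t) := by
  have h2 := Real.add_one_le_exp (-t)
  have h3 : Real.exp t * Real.exp (-t) = 1 := by rw [← Real.exp_add]; simp
  have h4 := Real.exp_pos t
  have h5 : Real.exp t * (1 - t) ≤ 1 := by
    nlinarith
  have h6 : 1 ≤ (1 + t * (1 + 2 * t)) * (1 - t) := by nlinarith [mul_nonneg h0 h0]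
  have h7 : Real.exp t * (1 - t) ≤ (1 + t * (1 + 2 * t)) * (1 - t) := h5.trans h6
  have := le_of_mul_le_mul_right h7 (by linarith)
  linarith

/-- length of a block of cells -/
lemma block_upper {h : ℝ} (hh : 0 < h) (k M : ℕ) (hM : M * h ≤ 1 / 2) :
    ((E h (k + M) - E h k : ℕ) : ℝ) ≤ Real.exp (k * h) * (M * h * (1 + 2 * (M * h))) + 1 := by
  rw [Nat.cast_sub (E_mono hh.le (Nat.le_add_right k M))]
  have h1 := E_le h (k + M)
  have h2 := lt_E h k
  have h3 : Real.exp ((k + M : ℕ) * h) = Real.exp (k * h) * Real.exp (M * h) := by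
    rw [← Real.exp_add]; push_cast; ring_nf
  have h4 := exp_sub_one_le (t := M * h) (by positivity) hM
  have h5 := Real.exp_pos (k * h)
  rw [h3] at h1
  nlinarith

lemma block_lower {h : ℝ} (hh : 0 < h) (k M : ℕ) :
    Real.exp (k * h) * (M * h) - 1 ≤ ((E h (k + M) - E h k : ℕ) : ℝ) := by
  rw [Nat.cast_sub (E_mono hh.le (Nat.le_add_right k M))]
  have h1 := lt_E h (k + M)
  have h2 := E_le h k
  have h3 : Real.exp ((k + M : ℕ) * h) = Real.exp (k * h) * Real.exp (M * h) := by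
    rw [← Real.exp_add]; push_cast; ring_nf
  have h4 := Real.add_one_le_exp (M * h)
  have h5 := Real.exp_pos (k * h)
  rw [h3] at h1
  nlinarith

lemma f_le {ε : ℝ} (hε : 0 < ε) (hε1 : ε ≤ 1 / 100) {Y₀ : ℕ}
    (hBT : ∀ A Y : ℕ, Y₀ ≤ Y →
      (((Ioc A (A + Y)).filter Nat.Prime).card : ℝ) ≤ (2 + ε / 10) * Y / Real.log Y)
    {h : ℝ} (hh : 0 < h) (hh1 : h ≤ ε / 100) (i : ℕ) (hu : 1 ≤ i * h)
    (h1 : 100 / ε ≤ h * Real.exp (i * h))
    (h2 : (1 - ε / 20) * (i * h) ≤ Real.log (h * Real.exp (i * h) / 2))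
    (h3 : (Y₀ : ℝ) ≤ h * Real.exp (i * h) / 2) :
    f h i ≤ 1 + ε := by
  set u : ℝ := i * h with hu_def
  set e : ℝ := Real.exp u with he_def
  have he : 0 < e := Real.exp_pos u
  have hhe : 0 < h * e := by positivity
  have hhe100 : 100 ≤ h * e * ε := by rwa [div_le_iff₀ hε] at h1
  have hhe2 : 2 ≤ h * e := by nlinarith
  set Y : ℕ := E h (i + 1) - E h i with hY_def
  have hYu : (Y : ℝ) ≤ e * (h * (1 + 2 * h)) + 1 := by
    have := block_upper hh i 1 (by push_cast; linarith)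
    simpa using this
  have hYl : e * h - 1 ≤ (Y : ℝ) := by
    have := block_lower hh i 1
    simpa using this
  have hYl2 : h * e / 2 ≤ (Y : ℝ) := by nlinarith
  have hY0 : Y₀ ≤ Y := by exact_mod_cast h3.trans hYl2
  have hYu2 : (Y : ℝ) ≤ h * e * (1 + 3 * ε / 100) := by
    have : (1:ℝ) ≤ h * e * (ε / 100) := by linarith
    have h2h : h * e * (2 * h) ≤ h * e * (2 * ε / 100) :=
      mul_le_mul_of_nonneg_left (by linarith) hhe.le
    nlinarith
  have hlogY : (1 - ε / 20) * u ≤ Real.log Y :=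
    h2.trans (Real.log_le_log (by positivity) hYl2)
  have hlogY0 : 0 < Real.log Y := lt_of_lt_of_le (by nlinarith) hlogY
  have hcard : ((C h i).card : ℝ) ≤ (2 + ε / 10) * Y / Real.log Y := by
    have := hBT (E h i) Y hY0
    have hE : E h i + Y = E h (i + 1) := by
      have := E_mono hh.le (Nat.le_succ i)
      simp only [Nat.succ_eq_add_one] at this
      omega
    rw [hE] at this
    exact this
  have hcard2 : ((C h i).card : ℝ) * ((1 - ε / 20) * u) ≤ (2 + ε / 10) * Y := by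
    rw [le_div_iff₀ hlogY0] at hcard
    exact le_trans (mul_le_mul_of_nonneg_left hlogY (Nat.cast_nonneg _)) hcard
  have hterm : ∀ p ∈ C h i, Real.log p / p ≤ u / e := by
    intro p hp
    rw [mem_C_iff] at hp
    have hlt : e < p := hp.2.1
    have h4 : Real.exp 1 ≤ e := Real.exp_le_exp.2 hu
    have := Real.log_div_self_antitoneOn (Set.mem_Ici.2 h4) (Set.mem_Ici.2 (h4.trans hlt.le)) hlt.le
    simpa [he_def] using this
  have hsum : ∑ p ∈ C h i, Real.log p / p ≤ (C h i).card * (u / e) := by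
    have := sum_le_card_nsmul _ _ _ hterm
    simpa [nsmul_eq_mul] using this
  rw [f, div_le_iff₀ (by positivity)]
  refine hsum.trans ?_
  have hu0 : 0 < u := by linarith
  have hfac : (0:ℝ) < 1 - ε / 20 := by linarith
  -- card * u ≤ (2 + ε/10) Y/(1 - ε/20)
  have h5 : ((C h i).card : ℝ) * u * (1 - ε / 20) ≤ (2 + ε / 10) * (h * e * (1 + 3 * ε / 100)) := by
    have : (2 + ε / 10) * (Y : ℝ) ≤ (2 + ε / 10) * (h * e * (1 + 3 * ε / 100)) :=
      mul_le_mul_of_nonneg_left hYu2 (by positivity)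
    nlinarith
  have h6 : (2 + ε / 10) * (1 + 3 * ε / 100) ≤ (1 + ε) * 2 * (1 - ε / 20) := by nlinarith
  have h7 : ((C h i).card : ℝ) * u * (1 - ε / 20) ≤ ((1 + ε) * (2 * h) * e) * (1 - ε / 20) := by
    calc ((C h i).card : ℝ) * u * (1 - ε / 20) ≤ (2 + ε / 10) * (h * e * (1 + 3 * ε / 100)) := h5
      _ = (h * e) * ((2 + ε / 10) * (1 + 3 * ε / 100)) := by ring
      _ ≤ (h * e) * ((1 + ε) * 2 * (1 - ε / 20)) := mul_le_mul_of_nonneg_left h6 hhe.le
      _ = _ := by ring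
  have h8 := le_of_mul_le_mul_right h7 hfac
  rw [← mul_div_assoc, div_le_iff₀ he]
  exact h8

end Pool.Agent.H180R3.E469
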