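import Pool.Agent.H27.G.R_seed8.H180R3.E469d

set_option autoImplicit false

open Finset

namespace Pool.Agent.H180R3.E469

/-- The numerical facts about the cell width `h`, for `L = log X` large. -/
structure Good (ε δs : ℝ) (Yb Xs N₀ M : ℕ) (C₁ L h : ℝ) : Prop where
  h0 : 0 < h
  hM : (M + 1) * h ≤ ε / 100
  L1 : 1 ≤ L
  N0 : (N₀ : ℝ) ≤ L / h
  Mε : (M : ℝ) ≤ ε * (L / h)
  big : 200 ≤ ε * (L / h)
  C1 : 200 * C₁ ≤ ε * L
  /-- facts for `u ≥ ε L` -/
  u1 : ∀ u : ℝ, ε * L ≤ u → 1 ≤ u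
  u2 : ∀ u : ℝ, ε * L ≤ u → 100 / ε ≤ h * Real.exp u
  u3 : ∀ u : ℝ, ε * L ≤ u → (1 - ε / 20) * u ≤ Real.log (h * Real.exp u / 2)
  u4 : ∀ u : ℝ, ε * L ≤ u → (Yb : ℝ) ≤ h * Real.exp u / 2
  v1 : ∀ u : ℝ, L / 2 ≤ u → (Xs : ℝ) ≤ Real.exp u / 2
  v2 : ∀ u : ℝ, L / 2 ≤ u → (Real.exp u) ^ (1 - δs) ≤ h * Real.exp u / 2
  v3 : ∀ u : ℝ, L / 2 ≤ u → 100 * Real.log 2 / ε ≤ u

lemma exists_good {ε : ℝ} (hε : 0 < ε) (hε1 : ε ≤ 1 / 100) {δs : ℝ} (hδ0 : 0 < δs) (hδ1 : δs < 1)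
    (Yb Xs N₀ M : ℕ) (C₁ : ℝ) (hC₁ : 0 < C₁) :
    ∃ δ : ℝ, 0 < δ ∧ δ < 1 ∧ ∃ L₀ : ℝ, ∀ L h : ℝ, L₀ ≤ L →
      Real.exp (-(δ * L)) / (100 * (M + 1) / ε) ≤ h → h ≤ 1 / (100 * (M + 1) / ε) →
      Good ε δs Yb Xs N₀ M C₁ L h := by
  set T : ℝ := 100 * (M + 1) / ε with hT_def
  have hT : 10000 ≤ T := by
    rw [hT_def, le_div_iff₀ hε]
    have : (0:ℝ) ≤ M := Nat.cast_nonneg M
    nlinarith
  have hT0 : 0 < T := by linarith
  set lT : ℝ := Real.log (2 * T) with hlT_def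
  have hlT : 0 < lT := Real.log_pos (by linarith)
  refine ⟨min (ε ^ 2 / 40) (δs / 4), by positivity, ?_, ?_⟩
  · exact lt_of_le_of_lt (min_le_right _ _) (by linarith)
  set δ : ℝ := min (ε ^ 2 / 40) (δs / 4) with hδ_def
  have hδa : δ ≤ ε ^ 2 / 40 := min_le_left _ _
  have hδb : δ ≤ δs / 4 := min_le_right _ _
  have hδpos : 0 < δ := by positivity
  set A₁ : ℝ := 40 * lT / ε ^ 2 with hA₁
  set A₂ : ℝ := 4 * ((Yb : ℝ) + 100 / ε) / ε with hA₂
  set A₃ : ℝ := 4 * (Xs : ℝ) with hA₃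
  set A₄ : ℝ := 4 * lT / δs with hA₄
  set A₅ : ℝ := 200 * C₁ / ε with hA₅
  set A₆ : ℝ := 200 / ε with hA₆
  have p1 : 0 < A₁ := by positivity
  have p2 : 0 < A₂ := by positivity
  have p3 : 0 ≤ A₃ := by positivity
  have p4 : 0 < A₄ := by positivity
  have p5 : 0 < A₅ := by positivity
  have p6 : 0 < A₆ := by positivity
  refine ⟨1 + (N₀ : ℝ) + M + A₁ + A₂ + A₃ + A₄ + A₅ + A₆, fun L h hL hh1 hh2 => ?_⟩
  have hN0' : (0:ℝ) ≤ N₀ := Nat.cast_nonneg _
  have hM' : (0:ℝ) ≤ M := Nat.cast_nonneg _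
  have L1 : 1 ≤ L := by linarith
  have LN : (N₀ : ℝ) ≤ L := by linarith
  have LM : (M : ℝ) ≤ L := by linarith
  have L_1 : A₁ ≤ L := by linarith
  have L_2 : A₂ ≤ L := by linarith
  have L_3 : A₃ ≤ L := by linarith
  have L_4 : A₄ ≤ L := by linarith
  have L_5 : A₅ ≤ L := by linarith
  have L_6 : A₆ ≤ L := by linarith
  have L0 : 0 < L := by linarith
  have h0 : 0 < h := lt_of_lt_of_le (by positivity) hh1
  have hTh : T * h ≤ 1 := by
    rw [le_div_iff₀ hT0] at hh2; linarith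
  have hLh : T * L ≤ L / h := by
    rw [le_div_iff₀ h0]
    nlinarith
  have hLh' : L ≤ L / h := by nlinarith
  -- lower bound for h * exp u in terms of logs
  have hexp : ∀ u : ℝ, Real.exp (u - δ * L - lT) ≤ h * Real.exp u / 2 := by
    intro u
    have e1 : Real.exp (u - δ * L - lT) = Real.exp (-(δ * L)) / T * Real.exp u / 2 := by
      have : Real.exp lT = 2 * T := Real.exp_log (by positivity)
      rw [show u - δ * L - lT = -(δ * L) + u - lT by ring, Real.exp_sub, this, Real.exp_add]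
      field_simp
    rw [e1]
    have := mul_le_mul_of_nonneg_right hh1 (Real.exp_pos u).le
    linarith
  have hkey : ∀ u : ℝ, ε * L ≤ u → (1 - ε / 20) * u ≤ u - δ * L - lT := by
    intro u hu
    have a1 : δ * L ≤ ε / 40 * u := by
      calc δ * L ≤ ε ^ 2 / 40 * L := mul_le_mul_of_nonneg_right hδa L0.le
        _ = ε / 40 * (ε * L) := by ring
        _ ≤ ε / 40 * u := mul_le_mul_of_nonneg_left hu (by positivity)
    have a2 : lT ≤ ε / 40 * u := by
      have : 40 * lT ≤ L * ε ^ 2 := by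
        rw [hA₁, div_le_iff₀ (by positivity)] at L_1; exact L_1
      have a3 : ε / 40 * (ε * L) ≤ ε / 40 * u := mul_le_mul_of_nonneg_left hu (by positivity)
      nlinarith
    linarith
  have hbig : ∀ u : ℝ, ε * L ≤ u → (Yb : ℝ) + 100 / ε ≤ h * Real.exp u / 2 := by
    intro u hu
    have a1 := hkey u hu
    have a2 := hexp u
    have a3 := Real.add_one_le_exp (u - δ * L - lT)
    have a4 : 4 * ((Yb : ℝ) + 100 / ε) ≤ L * ε := by
      rw [hA₂, div_le_iff₀ hε] at L_2; exact L_2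
    have a5 : 0 < u := lt_of_lt_of_le (by positivity) hu
    nlinarith
  have hε100 : 0 < 100 / ε := by positivity
  have hYb : (0:ℝ) ≤ Yb := Nat.cast_nonneg _
  constructor
  · exact h0
  · have : (M + 1) * h = ε / 100 * (T * h) := by
      rw [hT_def]; field_simp
    rw [this]
    exact mul_le_of_le_one_right (by positivity) hTh
  · exact L1
  · exact LN.trans hLh'
  · have : ε * (T * L) = 100 * (M + 1) * L := by rw [hT_def]; field_simp
    have h2 : ε * (T * L) ≤ ε * (L / h) := mul_le_mul_of_nonneg_left hLh hε.le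
    nlinarith
  · have h2 : ε * L ≤ ε * (L / h) := mul_le_mul_of_nonneg_left hLh' hε.le
    rw [hA₆, div_le_iff₀ hε] at L_6
    linarith
  · rw [hA₅, div_le_iff₀ hε] at L_5
    linarith
  · intro u hu
    rw [hA₆, div_le_iff₀ hε] at L_6
    linarith
  · intro u hu
    have := hbig u hu
    linarith
  · intro u hu
    refine (hkey u hu).trans ?_
    have := Real.log_le_log (Real.exp_pos _) (hexp u)
    rwa [Real.log_exp] at this
  · intro u hu
    have := hbig u hu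
    linarith
  · intro u hu
    have := Real.add_one_le_exp u
    have : 4 * (Xs:ℝ) ≤ L := L_3
    linarith
  · intro u hu
    refine le_trans ?_ (hexp u)
    rw [← Real.exp_mul]
    refine Real.exp_le_exp.2 ?_
    have a1 : δ * L ≤ δs / 4 * L := mul_le_mul_of_nonneg_right hδb L0.le
    have a2 : δs * (L / 2) ≤ δs * u := mul_le_mul_of_nonneg_left hu hδ0.le
    have a3 : 4 * lT ≤ L * δs := by
      rw [hA₄, div_le_iff₀ hδ0] at L_4; exact L_4
    linarith
  · intro u hu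
    have hl2 : Real.log 2 ≤ 1 := by have := Real.log_two_lt_d9; linarith
    have : 100 * Real.log 2 / ε ≤ 100 / ε := by
      apply div_le_div_of_nonneg_right _ hε.le; linarith
    have e2 : A₆ = 2 * (100 / ε) := by rw [hA₆]; ring
    linarith

end Pool.Agent.H180R3.E469
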