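import Pool.Agent.H27.G.R_seed8.H180R3.E469e

set_option autoImplicit false

open Finset

namespace Pool.Agent.H180R3.E469

open Pool.Agent.H469R10.HO

/-- Verification of the quadratic hypothesis of the structure lemma. -/
lemma quad {ε δs C₁ L h : ℝ} (hε : 0 < ε) (hε1 : ε ≤ 1 / 100) (hδ1 : δs < 1)
    {Yb Xs N₀ M N : ℕ} (hM : 0 < M) (G : Good ε δs Yb Xs N₀ M C₁ L h)
    (hMert : ∀ h : ℝ, 0 < h → ∀ a b : ℕ, a ≤ b →
      |∑ i ∈ Ico a b, f h i - ((b : ℝ) - a) / 2| ≤ C₁ / h)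
    (hSel : ∀ X Y : ℕ, Xs ≤ X → (X : ℝ) ^ (1 - δs) ≤ Y → Y ≤ X →
      (2 - ε / 5) * Y * Real.log X ≤
      Real.log X * ∑ p ∈ (Ioc X (X + Y)).filter Nat.Prime, Real.log p +
      ∑ x ∈ (range (X + Y + 1) ×ˢ range (X + Y + 1)).filter
        (fun x : ℕ × ℕ => x.1.Prime ∧ x.2.Prime ∧ X < x.1 * x.2 ∧ x.1 * x.2 ≤ X + Y),
        Real.log x.1 * Real.log x.2)
    (hLN : L / h ≤ N)
    (hup : ∀ i : ℕ, ε * N ≤ i → i ≤ N → f h i ≤ 1 + ε)
    (k : ℕ) (hk : (N : ℝ) / 2 ≤ k) (hkM : k + M ≤ N) :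
    (1 / 2 - 5 * ε) * k * M - k / 2 * ∑ i ∈ Ico k (k + M), f h i ≤
        ∑ m ∈ Icc (k - 1) (k + M - 1),
          ∑ i ∈ (range (m + 1)).filter (fun i : ℕ => ε * N ≤ i ∧ ε * N ≤ (m : ℝ) - i),
            f h i * f h (m - i) := by
  have h0 := G.h0
  have hM1 : (1:ℝ) ≤ M := by exact_mod_cast hM
  have hMh : (M:ℝ) * h ≤ ε / 100 := by
    have := G.hM
    nlinarith
  have hNh : L ≤ N * h := by rwa [div_le_iff₀ h0] at hLN
  have hL1 := G.L1
  have hkh : L / 2 ≤ k * h := by nlinarith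
  have hεL : ε * L ≤ k * h := by nlinarith
  have hsc := selberg_cells hε hε1 hδ1 hSel h0 hM hMh k (G.v1 _ hkh) (G.u2 _ hεL) (G.v2 _ hkh)
    (G.v3 _ hkh)
  have hεN200 : 200 ≤ ε * N := G.big.trans (mul_le_mul_of_nonneg_left hLN hε.le)
  have hC₁ : C₁ / h ≤ ε * N / 200 := by
    rw [div_le_iff₀ h0]
    have := G.C1
    nlinarith
  -- mass of the first cells
  have hfirst : ∑ i ∈ range ⌈ε * (N:ℝ)⌉₊, f h i ≤ 51 / 100 * (ε * N) := by
    have h1 := (abs_le.1 (hMert h h0 0 ⌈ε * (N:ℝ)⌉₊ (Nat.zero_le _))).2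
    rw [← range_eq_Ico] at h1
    have h2 := Nat.ceil_lt_add_one (show 0 ≤ ε * (N:ℝ) by positivity)
    push_cast at h1
    linarith
  have hrem : ∀ m ∈ Icc (k - 1) (k + M - 1), ∑ i ∈ range (m + 1), f h i * f h (m - i) ≤
      ∑ i ∈ (range (m + 1)).filter (fun i : ℕ => ε * N ≤ i ∧ ε * N ≤ (m : ℝ) - i),
        f h i * f h (m - i) + 2 * (1 + ε) * (51 / 100 * (ε * N)) := by
    intro m hm
    rw [mem_Icc] at hm
    refine removed_le (f h) (f_nonneg h0) (ε * N) m (1 + ε) _ (by positivity) ?_ hfirst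
    intro i hi him
    refine hup (m - i) ?_ (by omega)
    rw [Nat.cast_sub him]
    have h1 : (k:ℝ) ≤ m + 1 := by
      have : k ≤ m + 1 := by omega
      exact_mod_cast this
    nlinarith
  have hsum := sum_le_sum hrem
  rw [sum_add_distrib, sum_const, Nat.card_Icc, nsmul_eq_mul] at hsum
  have hcard : ((k + M - 1 + 1 - (k - 1) : ℕ) : ℝ) ≤ M + 1 := by
    have : k + M - 1 + 1 - (k - 1) ≤ M + 1 := by omega
    exact_mod_cast this
  have hrem2 : ((k + M - 1 + 1 - (k - 1) : ℕ) : ℝ) * (2 * (1 + ε) * (51 / 100 * (ε * N))) ≤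
      (5 - 1 / 5) * ε * k * M := by
    have hεN : 0 ≤ ε * N := by positivity
    calc ((k + M - 1 + 1 - (k - 1) : ℕ) : ℝ) * (2 * (1 + ε) * (51 / 100 * (ε * N)))
        ≤ (2 * M) * (2 * (1 + 1 / 100) * (51 / 100 * (ε * N))) := by
          apply mul_le_mul (by linarith) _ (by positivity) (by positivity)
          apply mul_le_mul_of_nonneg_right _ (by positivity)
          linarith
      _ ≤ (5 - 1 / 5) * ε * (N / 2) * M := by nlinarith [mul_nonneg hεN (le_trans zero_le_one hM1)]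
      _ ≤ (5 - 1 / 5) * ε * k * M := by
          apply mul_le_mul_of_nonneg_right _ (by positivity)
          exact mul_le_mul_of_nonneg_left hk (by positivity)
  linarith

/-- TASK E. -/
theorem hoheisel_of (hA : StructureLemma') (hC : BT2) (hD : SelbergShort) : Hoheisel := by
  obtain ⟨ε, η, M, N₀, hε, hε1, hη, hM, hStruct⟩ := hA
  obtain ⟨Yb, hYb2, hBT⟩ := hC (ε / 10) (by positivity)
  obtain ⟨δs, hδs0, hδs1, Xs, hXs2, hSel⟩ := hD (ε / 5) (by positivity)
  obtain ⟨C₁, hC₁, hMert⟩ := mertens_cells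
  obtain ⟨δ, hδ0, hδ1, L₀, hgood⟩ := exists_good hε hε1 hδs0 hδs1 Yb Xs N₀ M C₁ hC₁
  have hM1 : (1:ℝ) ≤ M := by exact_mod_cast hM
  set T : ℝ := 100 * (M + 1) / ε with hT_def
  have hT0 : 0 < T := by positivity
  refine ⟨δ, 2 * η * M / T, hδ0, hδ1, by positivity, max 3 ⌈Real.exp L₀⌉₊,
    le_trans (by norm_num) (le_max_left _ _), ?_⟩
  intro X Y hX hXY hYX
  have hX3 : (3:ℝ) ≤ X := by exact_mod_cast (le_max_left _ _).trans hX
  have hX0 : (0:ℝ) < X := by linarith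
  set L : ℝ := Real.log X with hL_def
  have hL : L₀ ≤ L := by
    rw [hL_def, Real.le_log_iff_exp_le hX0]
    exact (Nat.le_ceil _).trans (by exact_mod_cast (le_max_right _ _).trans hX)
  have hYX' : (Y:ℝ) ≤ X := by exact_mod_cast hYX
  have hXexp : (X:ℝ) = Real.exp L := (Real.exp_log hX0).symm
  have hrpow : (X:ℝ) ^ (1 - δ) = X * Real.exp (-(δ * L)) := by
    rw [Real.rpow_def_of_pos hX0, ← hL_def, hXexp, ← Real.exp_add]
    ring_nf
  set h : ℝ := Y / (T * X) with hh_def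
  have hlow : Real.exp (-(δ * L)) / T ≤ h := by
    rw [hh_def, div_le_div_iff₀ hT0 (by positivity)]
    rw [hrpow] at hXY
    nlinarith
  have hupp : h ≤ 1 / T := by
    rw [hh_def, div_le_div_iff₀ (by positivity) hT0]
    nlinarith
  have G := hgood L h hL hlow hupp
  have h0 := G.h0
  set K : ℕ := ⌈L / h⌉₊ with hK_def
  have hKl : L / h ≤ K := Nat.le_ceil _
  have hL0 : 0 < L := by linarith [G.L1]
  have hKu : (K:ℝ) < L / h + 1 := Nat.ceil_lt_add_one (by positivity)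
  have hKh : L ≤ K * h := by rwa [div_le_iff₀ h0] at hKl
  have hKh2 : (K:ℝ) * h ≤ L + h := by
    have : (K:ℝ) * h ≤ (L / h + 1) * h := mul_le_mul_of_nonneg_right hKu.le h0.le
    have e : (L / h + 1) * h = L + h := by field_simp
    linarith
  have hLN : L / h ≤ ((K + M : ℕ) : ℝ) := by push_cast; linarith
  have hNh : L ≤ ((K + M : ℕ) : ℝ) * h := by rwa [div_le_iff₀ h0] at hLN
  have hNN : N₀ ≤ K + M := by exact_mod_cast G.N0.trans hLN
  have hh1 : h ≤ ε / 100 := by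
    have := G.hM
    nlinarith
  have hup : ∀ i : ℕ, ε * ((K + M : ℕ) : ℝ) ≤ i → i ≤ K + M → f h i ≤ 1 + ε := by
    intro i hi _
    have hu : ε * L ≤ i * h := by
      have : ε * ((K + M : ℕ) : ℝ) * h ≤ i * h := mul_le_mul_of_nonneg_right hi h0.le
      nlinarith
    exact f_le hε hε1 hBT h0 hh1 i (G.u1 _ hu) (G.u2 _ hu) (G.u3 _ hu) (G.u4 _ hu)
  have hconc := hStruct (K + M) hNN (f h) (f_nonneg h0) hup
    (fun a b _ hab _ => by
      refine (hMert h h0 a b hab).trans ?_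
      rw [div_le_iff₀ h0]
      have := G.C1
      have h3 : 0 ≤ ε * L := by positivity
      nlinarith)
    (fun k hk hkM => quad hε hε1 hδs1 hM G hMert hSel hLN hup k hk hkM)
    K (by
      have h1 := G.Mε
      have h2 : ε * (L / h) ≤ ε * ((K + M : ℕ) : ℝ) := mul_le_mul_of_nonneg_left hLN hε.le
      push_cast at h2 ⊢
      linarith) le_rfl
  rw [sum_f h0 (Nat.le_add_right K M), le_div_iff₀ (by positivity)] at hconc
  -- the window lies in `(X, X + Y]`
  have hEK : X ≤ E h K := by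
    refine Nat.le_floor ?_
    rw [hXexp]
    exact Real.exp_le_exp.2 hKh
  have hEKM : E h (K + M) ≤ X + Y := by
    have h1 := E_le h (K + M)
    have h2 : ((K + M : ℕ) : ℝ) * h ≤ L + (M + 1) * h := by push_cast; linarith
    have h3 : (M + 1) * h = ε * Y / (100 * X) := by
      rw [hh_def, hT_def]; field_simp
    have h4 := G.hM
    have h5 : 0 ≤ (M + 1) * h := by positivity
    have h6 := exp_sub_one_le (t := (M + 1) * h) h5 (by linarith)
    have h7 : (M + 1) * h * (1 + 2 * ((M + 1) * h)) ≤ Y / X := by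
      have : (M + 1) * h ≤ Y / (2 * X) := by
        rw [h3, div_le_div_iff₀ (by positivity) (by positivity)]
        have : (0:ℝ) ≤ Y * X := by positivity
        nlinarith
      have e : (Y:ℝ) / X = 2 * (Y / (2 * X)) := by field_simp
      rw [e]
      nlinarith
    have h8 : (E h (K + M) : ℝ) ≤ X + Y := by
      calc (E h (K + M) : ℝ) ≤ Real.exp (L + (M + 1) * h) := h1.trans (Real.exp_le_exp.2 h2)
        _ = X * Real.exp ((M + 1) * h) := by rw [Real.exp_add, ← hXexp]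
        _ ≤ X * (1 + Y / X) := mul_le_mul_of_nonneg_left (by linarith) hX0.le
        _ = X + Y := by field_simp
    exact_mod_cast h8
  have hsub : (Ioc (E h K) (E h (K + M))).filter Nat.Prime ⊆ (Ioc X (X + Y)).filter Nat.Prime := by
    intro p hp
    rw [mem_filter, mem_Ioc] at hp ⊢
    exact ⟨⟨by omega, by omega⟩, hp.2⟩
  have hexp1 : Real.exp 1 ≤ X := by
    have := Real.exp_one_lt_d9
    linarith
  have hsum : ∑ p ∈ (Ioc (E h K) (E h (K + M))).filter Nat.Prime, Real.log p / p ≤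
      (((Ioc X (X + Y)).filter Nat.Prime).card : ℝ) * (L / X) := by
    refine (sum_le_sum_of_subset_of_nonneg hsub fun p _ _ => logdiv_nonneg p).trans ?_
    rw [← nsmul_eq_mul]
    refine sum_le_card_nsmul _ _ _ fun p hp => ?_
    rw [mem_filter, mem_Ioc] at hp
    have hpX : (X:ℝ) ≤ p := by exact_mod_cast hp.1.1.le
    exact Real.log_div_self_antitoneOn (Set.mem_Ici.2 hexp1) (Set.mem_Ici.2 (hexp1.trans hpX)) hpX
  have hfin := hconc.trans hsum
  rw [div_le_iff₀ hL0]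
  have e1 : η * M * (2 * h) = 2 * η * M / T * Y / X := by
    rw [hh_def]; field_simp
  rw [e1, ← mul_div_assoc, div_le_div_iff_of_pos_right hX0] at hfin
  exact hfin

end Pool.Agent.H180R3.E469
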